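import Pool.Agent.H55.XR2.HLDS

/-! Board xr2, row HLD: blunt extreme points. -/

set_option autoImplicit false

open MeasureTheory Set Filter Topology Metric
open scoped Real

namespace Pool.XR2

open Pool.Agent.H45.XR

/-- A `C¹` body in the upper half space which contains `0` has interior points above `0`. -/
theorem HLD_up (K : Set (ℂ × ℝ)) (hK : Body3 K) (hC : C1 K) (h0 : (0 : ℂ × ℝ) ∈ K)
    (hp : ∀ p ∈ K, 0 ≤ p.2) (ρ : ℝ) (hρ : 0 < ρ) :
    ∃ a, 0 < a ∧ a ≤ ρ ∧ ((0 : ℂ), a) ∈ interior K := by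
  by_contra hno
  push Not at hno
  have hno' : ∀ a, 0 ≤ a → ((0 : ℂ), a) ∉ interior K := by
    intro a ha hmem
    rcases ha.eq_or_lt with rfl | ha
    · -- `0` is not an interior point
      obtain ⟨e, he, hball⟩ := Metric.isOpen_iff.1 isOpen_interior _ hmem
      have h1 : ((0 : ℂ), -(e / 2)) ∈ interior K := hball (by
        rw [Metric.mem_ball, Prod.dist_eq]
        simp only [dist_self, Real.dist_eq]
        rw [show -(e / 2) - 0 = -(e / 2) by ring, abs_neg, abs_of_pos (by linarith)]
        exact max_lt (by linarith) (by linarith))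
      have := hp _ (interior_subset h1)
      simp only at this
      linarith
    · -- scale down
      set t : ℝ := min 1 (ρ / a) with ht
      have ht0 : 0 < t := lt_min one_pos (by positivity)
      have ht1 : t ≤ 1 := min_le_left _ _
      have hta : t * a ≤ ρ := by
        have : t ≤ ρ / a := min_le_right _ _
        calc t * a ≤ ρ / a * a := by gcongr
          _ = ρ := by field_simp
      have hmem2 : ((0 : ℂ), t * a) ∈ interior K := by
        have := hK.conv.combo_closure_interior_mem_interior (x := (0 : ℂ × ℝ))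
          (y := ((0 : ℂ), a)) (subset_closure h0) hmem (a := 1 - t) (b := t) (by linarith) ht0
          (by ring)
        have e1 : (1 - t) • (0 : ℂ × ℝ) + t • ((0 : ℂ), a) = ((0 : ℂ), t * a) := by
          ext <;> simp
        rw [e1] at this
        exact this
      exact hno (t * a) (by positivity) hta hmem2
  -- separation
  have hray : Convex ℝ {p : ℂ × ℝ | p.1 = 0 ∧ 0 ≤ p.2} := by
    intro p hp q hq u v hu hv huv
    refine ⟨?_, ?_⟩
    · simp [hp.1, hq.1]
    · simp only [Prod.snd_add, Prod.smul_snd, smul_eq_mul]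
      have := hp.2
      have := hq.2
      positivity
  have hdisj : Disjoint (interior K) {p : ℂ × ℝ | p.1 = 0 ∧ 0 ≤ p.2} := by
    rw [Set.disjoint_left]
    rintro ⟨z, a⟩ h1 ⟨h2, h3⟩
    simp only at h2 h3
    subst h2
    exact hno' a h3 h1
  obtain ⟨f, u, hf1, hf2⟩ := geometric_hahn_banach_open hK.conv.interior isOpen_interior hray hdisj
  have hu0 : u ≤ 0 := by
    have := hf2 0 ⟨rfl, le_refl _⟩
    simpa using this
  have hfK : ∀ q ∈ K, f q ≤ f 0 := by
    intro q hq
    have hcl : q ∈ closure (interior K) := by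
      rw [hK.conv.closure_interior_eq_closure_of_nonempty_interior hK.ne]
      exact subset_closure hq
    have h1 : closure (interior K) ⊆ {p | f p ≤ u} :=
      closure_minimal (fun p hp => (hf1 p hp).le) (isClosed_le f.continuous continuous_const)
    have h2 : f q ≤ u := h1 hcl
    rw [map_zero]
    linarith
  obtain ⟨w, hw⟩ := hK.ne
  have hfne : f ≠ 0 := by
    intro h
    have h1 := hf1 w hw
    have h2 := hf2 0 ⟨rfl, le_refl _⟩
    rw [h] at h1 h2
    simp only [zero_apply] at h1 h2
    linarith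
  set g : (ℂ × ℝ) →L[ℝ] ℝ := -(ContinuousLinearMap.snd ℝ ℂ ℝ) with hg
  have hgne : g ≠ 0 := by
    intro h
    have h1 : g ((0 : ℂ), (1 : ℝ)) = 0 := by rw [h]; rfl
    rw [hg] at h1
    simp at h1
  have hgK : ∀ q ∈ K, g q ≤ g 0 := by
    intro q hq
    have := hp q hq
    rw [hg]
    simp only [neg_apply, ContinuousLinearMap.coe_snd', Prod.snd_zero,
      neg_zero]
    linarith
  obtain ⟨c, hc, hgc⟩ := hC 0 h0 f g hfne hgne hfK hgK
  have h1 : g ((0 : ℂ), (1 : ℝ)) = c * f ((0 : ℂ), (1 : ℝ)) := by rw [hgc]; rfl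
  have h2 : g ((0 : ℂ), (1 : ℝ)) = -1 := by rw [hg]; simp
  have h3 : 0 ≤ f ((0 : ℂ), (1 : ℝ)) := by
    -- along the ray f is bounded below by u
    by_contra hneg
    push Not at hneg
    have h4 := hf2 ((0 : ℂ), (u - 1) / f ((0 : ℂ), (1 : ℝ))) ⟨rfl, by
      simp only
      exact div_nonneg_of_nonpos (by linarith) hneg.le⟩
    have e1 : ((0 : ℂ), (u - 1) / f ((0 : ℂ), (1 : ℝ))) =
        ((u - 1) / f ((0 : ℂ), (1 : ℝ))) • ((0 : ℂ), (1 : ℝ)) := by
      ext <;> simp
    rw [e1, map_smul, smul_eq_mul, div_mul_cancel₀ _ hneg.ne] at h4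
    linarith
  have h5 : 0 ≤ c * f ((0 : ℂ), (1 : ℝ)) := mul_nonneg hc.le h3
  linarith

theorem t_hld2 (hHL1 : HL1Stmt) : HLD2Stmt := by
  intro K hK hC h0 hp hR
  obtain ⟨N, hN, ρ, hρ, hstep⟩ := hHL1 K hK hC h0 hp hR
  obtain ⟨a0, ha0, ha0ρ, hint⟩ := HLD_up K hK hC h0 hp ρ hρ
  obtain ⟨r', hr', hball⟩ := Metric.isOpen_iff.1 isOpen_interior _ hint
  set r : ℝ := min (r' / 2) ρ with hr
  have hr0 : 0 < r := lt_min (by linarith) hρ
  have hrρ : r ≤ ρ := min_le_right _ _
  have hbase : ∀ z : ℂ, ‖z‖ ≤ r → (z, a0) ∈ K := by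
    intro z hz
    apply interior_subset
    apply hball
    rw [Metric.mem_ball, Prod.dist_eq]
    simp only [dist_self, dist_zero_right]
    have : r ≤ r' / 2 := min_le_left _ _
    exact max_lt (by linarith) hr'
  have hN1 : (1 : ℝ) < N := by exact_mod_cast (by omega : 1 < N)
  have hNpos : (0 : ℝ) < N := by linarith
  -- iteration
  have hit : ∀ (k : ℕ) (z : ℂ), ‖z‖ ≤ r / N ^ k → (z, a0 / (2 * N) ^ k) ∈ K := by
    intro k
    induction k with
    | zero =>
      intro z hz
      simpa using hbase z (by simpa using hz)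
    | succ k ih =>
      intro z hz
      have h1 : ‖(N : ℂ) * z‖ ≤ r / N ^ k := by
        rw [norm_mul, Complex.norm_natCast]
        calc (N : ℝ) * ‖z‖ ≤ N * (r / N ^ (k + 1)) := by gcongr
          _ = r / N ^ k := by
            rw [pow_succ]
            field_simp
      have h2 := ih _ h1
      have h3 : ‖(N : ℂ) * z‖ ≤ ρ := by
        refine h1.trans (le_trans ?_ hrρ)
        exact div_le_self hr0.le (one_le_pow₀ hN1.le)
      have h4 : a0 / (2 * N) ^ k ≤ ρ := by
        refine le_trans ?_ ha0ρ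
        exact div_le_self ha0.le (one_le_pow₀ (by linarith))
      have h5 := hstep _ _ h3 h4 h2
      have e1 : (N : ℂ) * z / N = z := by
        have : (N : ℂ) ≠ 0 := by exact_mod_cast (by omega : N ≠ 0)
        field_simp
      have e2 : a0 / (2 * (N : ℝ)) ^ k / (2 * N) = a0 / (2 * N) ^ (k + 1) := by
        rw [pow_succ, div_div]
      rw [e1, e2] at h5
      exact h5
  -- the exponent
  set α : ℝ := Real.log 2 / Real.log N with hα
  have hlogN : 0 < Real.log N := Real.log_pos hN1
  have hα0 : 0 < α := div_pos (Real.log_pos (by norm_num)) hlogN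
  have hpowα : (N : ℝ) ^ (1 + α) = 2 * N := by
    rw [Real.rpow_add hNpos, Real.rpow_one]
    have : (N : ℝ) ^ α = 2 := by
      rw [Real.rpow_def_of_pos hNpos, hα]
      have : Real.log N * (Real.log 2 / Real.log N) = Real.log 2 := by field_simp
      rw [this, Real.exp_log (by norm_num)]
    rw [this]
    ring
  have hrN : 0 < r / N := by positivity
  set B : ℝ := a0 / (r / N) ^ (1 + α) with hB
  have hrNp : 0 < (r / N) ^ (1 + α) := Real.rpow_pos_of_pos hrN _
  have hB0 : 0 < B := div_pos ha0 hrNp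
  refine ⟨B, hB0, α, hα0, a0, ha0, ?_⟩
  intro z a _ hza haδ
  rcases eq_or_ne z 0 with rfl | hz
  · -- on the axis: segment
    have ha : 0 ≤ a := by
      rw [norm_zero, Real.zero_rpow (by linarith), mul_zero] at hza
      exact hza
    have h1 := hK.conv h0 (hbase 0 (by simpa using hr0.le)) (a := 1 - a / a0) (b := a / a0)
      (by rw [sub_nonneg, div_le_one ha0]; exact haδ) (by positivity) (by ring)
    have e1 : (1 - a / a0) • (0 : ℂ × ℝ) + (a / a0) • ((0 : ℂ), a0) = ((0 : ℂ), a) := by
      ext <;> simp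
      field_simp
    rw [e1] at h1
    exact h1
  · have hzpos : 0 < ‖z‖ := norm_pos_iff.2 hz
    have hapos : 0 < a := lt_of_lt_of_le (by positivity) hza
    obtain ⟨k, hk1, hk2⟩ := exists_nat_pow_near (x := a0 / a) (y := 2 * (N : ℝ))
      (by rw [le_div_iff₀ hapos]; linarith) (by linarith)
    have h2N : (0 : ℝ) < (2 * N) ^ k := by positivity
    have h2N' : (0 : ℝ) < (2 * N) ^ (k + 1) := by positivity
    have hak : a ≤ a0 / (2 * N) ^ k := by
      rw [le_div_iff₀ hapos] at hk1
      rw [le_div_iff₀ h2N]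
      linarith
    have hak' : a0 / (2 * N) ^ (k + 1) < a := by
      rw [div_lt_iff₀ hapos] at hk2
      rw [div_lt_iff₀ h2N']
      linarith
    have hzk : ‖z‖ ≤ r / N ^ (k + 1) := by
      by_contra hcon
      push Not at hcon
      have hNk : (0 : ℝ) < N ^ (k + 1) := by positivity
      have h1 : (r / N ^ (k + 1)) ^ (1 + α) < ‖z‖ ^ (1 + α) :=
        Real.rpow_lt_rpow (by positivity) hcon (by linarith)
      have h2 : (r / (N : ℝ) ^ (k + 1)) ^ (1 + α) = (r / N) ^ (1 + α) / (2 * N) ^ k := by
        have e1 : r / (N : ℝ) ^ (k + 1) = (r / N) / N ^ k := by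
          rw [pow_succ]
          field_simp
        rw [e1, Real.div_rpow hrN.le (by positivity)]
        congr 1
        rw [← hpowα, ← Real.rpow_natCast, ← Real.rpow_natCast, ← Real.rpow_mul hNpos.le,
          ← Real.rpow_mul hNpos.le]
        congr 1
        ring
      rw [h2] at h1
      have h3 : B * ((r / N) ^ (1 + α) / (2 * N) ^ k) < B * ‖z‖ ^ (1 + α) := by gcongr
      have h4 : B * ((r / N) ^ (1 + α) / (2 * (N : ℝ)) ^ k) = a0 / (2 * N) ^ k := by
        rw [hB]
        field_simp
      rw [h4] at h3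
      linarith
    have hm1 := hit (k + 1) z hzk
    have hm2 := hit k z (hzk.trans (by
      apply div_le_div_of_nonneg_left hr0.le (by positivity)
      exact pow_le_pow_right₀ hN1.le (by omega)))
    -- convexity
    set A1 := a0 / (2 * (N : ℝ)) ^ (k + 1) with hA1
    set A2 := a0 / (2 * (N : ℝ)) ^ k with hA2
    have hA12 : 0 < A2 - A1 := by linarith
    have h1 := hK.conv hm1 hm2 (a := (A2 - a) / (A2 - A1)) (b := (a - A1) / (A2 - A1))
      (div_nonneg (by linarith) hA12.le) (div_nonneg (by linarith) hA12.le) (by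
        field_simp
        ring)
    have e1 : ((A2 - a) / (A2 - A1)) • (z, A1) + ((a - A1) / (A2 - A1)) • (z, A2) = (z, a) := by
      ext1
      · show ((A2 - a) / (A2 - A1)) • z + ((a - A1) / (A2 - A1)) • z = z
        rw [← add_smul]
        have : (A2 - a) / (A2 - A1) + (a - A1) / (A2 - A1) = 1 := by
          field_simp
          ring
        rw [this, one_smul]
      · show ((A2 - a) / (A2 - A1)) * A1 + ((a - A1) / (A2 - A1)) * A2 = a
        field_simp
        ring
    rw [e1] at h1
    exact h1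

theorem t_hld (hHL1 : HL1Stmt) : HLDStmt := t_hld2 hHL1

end Pool.XR2
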