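import Pool.Agent.H52.XR2.S2

/-! Board xr2: the statement HLD with a real exponent. -/

set_option autoImplicit false

open MeasureTheory Set Filter Topology Metric
open scoped Real

namespace Pool.XR2

open Pool.Agent.H45.XR

/-- HLD: blunt extreme points (the exponent is a real number). -/
def HLD2Stmt : Prop := ∀ K : Set (ℂ × ℝ), Body3 K → C1 K → (0 : ℂ × ℝ) ∈ K → (∀ p ∈ K, 0 ≤ p.2) →
  (∃ c > 0, ∃ η > 0, ∀ g : ℂ, ‖g‖ < η → ∀ h ∈ Hts (Sg g K), Round c (sec (Sg g K) h)) →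
  ∃ B > (0 : ℝ), ∃ α > (0 : ℝ), ∃ δ > (0 : ℝ), ∀ (z : ℂ) (a : ℝ), ‖z‖ ≤ δ →
    B * ‖z‖ ^ (1 + α) ≤ a → a ≤ δ → (z, a) ∈ K

end Pool.XR2
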